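import Pool.Agent.Helper7.GaborOrbit.Proof

set_option autoImplicit false

open Pool.Agent.Helper7.GaborOrbit

namespace Pool.Agent.Results.MP_fbf723_an.NoBoundedRep

/-- An overcomplete Gabor frame for `L²(ℝ)` has neither a bounded `ℕ`-representation nor a bounded
`ℤ`-representation. -/
theorem result (g : ℝ → ℂ) (a b : ℝ) (hg : SqInt g) (hframe : IsFrame (gabor g a b))
    (hover : ¬ IsBasis (gabor g a b)) :
    ¬ BoundedRep ℕ (gabor g a b) ∧ ¬ BoundedRep ℤ (gabor g a b) :=
  Pool.Agent.Helper7.GaborOrbit.main g a b hg hframe hover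

end Pool.Agent.Results.MP_fbf723_an.NoBoundedRep
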